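import Pool.Agent.H174.GP.StI

/-!
Project GP (helper174), leaf gshift: the shift inequality (Hölder) for the Gaussian sequence.
The structure follows helper967's proof of `S_shift`.
-/

set_option autoImplicit false

open MeasureTheory ProbabilityTheory Finset

namespace Pool.Agent.H190.GP174

open Pool.Agent.H174.GP

/-- The standard normal distribution. -/
noncomputable abbrev gg : Measure ℝ := gaussianReal 0 1

/-- The density of the shifted normal distribution with respect to the normal distribution. -/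
noncomputable def rr (η z : ℝ) : ENNReal := ENNReal.ofReal (Real.exp (η * z - η ^ 2 / 2))

theorem rr_meas (η : ℝ) : Measurable (rr η) := by
  unfold rr
  fun_prop

theorem gg_map (η : ℝ) : gg.map (fun x => x + η) = gg.withDensity (rr η) := by
  have h1 : gg.map (fun x => x + η) = gaussianReal (0 + η) 1 := gaussianReal_map_add_const η
  rw [h1, zero_add, gg, gaussianReal_of_var_ne_zero η one_ne_zero,
    gaussianReal_of_var_ne_zero 0 one_ne_zero,
    ← withDensity_mul _ (measurable_gaussianPDF 0 1) (rr_meas η)]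
  congr 1
  funext x
  have hk : gaussianPDFReal η 1 x = gaussianPDFReal 0 1 x * Real.exp (η * x - η ^ 2 / 2) := by
    simp only [gaussianPDFReal_def]
    have hk2 : Real.exp (-(x - η) ^ 2 / (2 * ((1 : NNReal) : ℝ))) =
        Real.exp (-(x - 0) ^ 2 / (2 * ((1 : NNReal) : ℝ))) * Real.exp (η * x - η ^ 2 / 2) := by
      rw [← Real.exp_add]
      congr 1
      push_cast
      ring
    rw [hk2]
    ring
  rw [Pi.mul_apply]
  show ENNReal.ofReal (gaussianPDFReal η 1 x) = ENNReal.ofReal (gaussianPDFReal 0 1 x) * rr η x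
  unfold rr
  rw [← ENNReal.ofReal_mul (gaussianPDFReal_nonneg _ _ _), hk]

instance gg_rr_prob (η : ℝ) : IsProbabilityMeasure (gg.withDensity (rr η)) := by
  rw [← gg_map]
  exact Measure.isProbabilityMeasure_map (by fun_prop)

variable {ι : Type*} [Fintype ι]

theorem lint_prod (g : ι → ℝ → ENNReal) (hg : ∀ i, Measurable (g i)) :
    ∫⁻ x, ∏ i, g i (x i) ∂(Measure.pi (fun _ : ι => gg)) = ∏ i, ∫⁻ z, g i z ∂gg := by
  rw [lintegral_prod_eq_prod_lintegral_of_indepFun Finset.univ (fun i (x : ι → ℝ) => g i (x i))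
    (iIndepFun_pi fun i => (hg i).aemeasurable) (fun i => (hg i).comp (measurable_pi_apply i))]
  refine Finset.prod_congr rfl fun i _ => ?_
  exact (measurePreserving_eval (fun _ : ι => gg) i).lintegral_comp (hg i)

theorem pi_dens (η : ι → ℝ) :
    Measure.pi (fun i => gg.withDensity (rr (η i))) =
      (Measure.pi (fun _ : ι => gg)).withDensity (fun x => ∏ i, rr (η i) (x i)) := by
  refine Measure.pi_eq fun s hs => ?_
  rw [withDensity_apply _ (MeasurableSet.univ_pi hs),
    ← lintegral_indicator (MeasurableSet.univ_pi hs)]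
  have h1 : ∀ x : ι → ℝ, (Set.univ.pi s).indicator (fun x => ∏ i, rr (η i) (x i)) x =
      ∏ i, (s i).indicator (rr (η i)) (x i) := by
    intro x
    by_cases hx : x ∈ Set.univ.pi s
    · rw [Set.indicator_of_mem hx]
      refine Finset.prod_congr rfl fun i _ => ?_
      rw [Set.indicator_of_mem (hx i (Set.mem_univ i))]
    · rw [Set.indicator_of_notMem hx]
      simp only [Set.mem_pi, Set.mem_univ, true_implies, not_forall] at hx
      obtain ⟨i, hi⟩ := hx
      exact (Finset.prod_eq_zero (Finset.mem_univ i) (Set.indicator_of_notMem hi _)).symm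
  rw [lintegral_congr h1, lint_prod _ fun i => (rr_meas _).indicator (hs i)]
  refine Finset.prod_congr rfl fun i _ => ?_
  rw [lintegral_indicator (hs i), withDensity_apply _ (hs i)]

theorem pi_map (η : ι → ℝ) :
    (Measure.pi (fun _ : ι => gg)).map (fun x i => x i + η i) =
      (Measure.pi (fun _ : ι => gg)).withDensity (fun x => ∏ i, rr (η i) (x i)) := by
  have h0 : ∀ i : ι, IsProbabilityMeasure (gg.map (fun x => x + η i)) := fun i =>
    Measure.isProbabilityMeasure_map (by fun_prop)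
  rw [Measure.pi_map_pi (f := fun i x => x + η i) (fun i => by fun_prop), ← pi_dens]
  congr 1
  funext i
  exact gg_map (η i)

/-- Hölder. -/
theorem pi_holder (η : ι → ℝ) (G : Set (ι → ℝ)) (hG : MeasurableSet G) {a b : ℝ}
    (hab : a.HolderConjugate b) :
    Measure.pi (fun _ : ι => gg) G ≤
      (Measure.pi (fun _ : ι => gg) {x | (fun i => x i - η i) ∈ G}) ^ (1 / a) *
        (∏ i, ∫⁻ z, rr (η i) z ^ b ∂gg) ^ (1 / b) := by
  set μ := Measure.pi (fun _ : ι => gg) with hμ
  have hm : Measurable (fun (x : ι → ℝ) i => x i - η i) := by fun_prop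
  have hm' : Measurable (fun (x : ι → ℝ) i => x i + η i) := by fun_prop
  have hG' : MeasurableSet {x : ι → ℝ | (fun i => x i - η i) ∈ G} := hm hG
  have hR : Measurable (fun x : ι → ℝ => ∏ i, rr (η i) (x i)) :=
    Finset.measurable_fun_prod _ fun i _ => (rr_meas (η i)).comp (measurable_pi_apply i)
  have h1 : μ G = (μ.map (fun x i => x i + η i)) {x | (fun i => x i - η i) ∈ G} := by
    rw [Measure.map_apply hm' hG']
    congr 1
    ext x
    simp
  rw [h1, pi_map, withDensity_apply _ hG', ← lintegral_indicator hG']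
  have h2 : ∀ x : ι → ℝ, ({x | (fun i => x i - η i) ∈ G} : Set (ι → ℝ)).indicator
      (fun x => ∏ i, rr (η i) (x i)) x =
      ((({x | (fun i => x i - η i) ∈ G} : Set (ι → ℝ)).indicator (fun _ => (1 : ENNReal))) *
        (fun x : ι → ℝ => ∏ i, rr (η i) (x i))) x := by
    intro x
    rw [Pi.mul_apply]
    by_cases hx : x ∈ {x : ι → ℝ | (fun i => x i - η i) ∈ G}
    · rw [Set.indicator_of_mem hx, Set.indicator_of_mem hx, one_mul]
    · rw [Set.indicator_of_notMem hx, Set.indicator_of_notMem hx, zero_mul]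
  rw [lintegral_congr h2]
  refine (ENNReal.lintegral_mul_le_Lp_mul_Lq μ hab
    ((measurable_const.indicator hG').aemeasurable) hR.aemeasurable).trans (le_of_eq ?_)
  congr 2
  · have h3 : ∀ x : ι → ℝ, (({x | (fun i => x i - η i) ∈ G} : Set (ι → ℝ)).indicator
        (fun _ => (1 : ENNReal)) x) ^ a =
        ({x | (fun i => x i - η i) ∈ G} : Set (ι → ℝ)).indicator (fun _ => (1 : ENNReal)) x := by
      intro x
      by_cases hx : x ∈ {x : ι → ℝ | (fun i => x i - η i) ∈ G}
      · rw [Set.indicator_of_mem hx, ENNReal.one_rpow]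
      · rw [Set.indicator_of_notMem hx, ENNReal.zero_rpow_of_pos hab.pos]
    rw [lintegral_congr h3, lintegral_indicator hG', setLIntegral_one]
  · rw [← lint_prod (fun i z => rr (η i) z ^ b) (fun i => (rr_meas (η i)).pow_const b)]
    refine lintegral_congr fun x => ?_
    rw [ENNReal.prod_rpow_of_nonneg hab.symm.nonneg]

theorem mom {b η : ℝ} :
    ∫⁻ z, rr η z ^ b ∂gg = ENNReal.ofReal (Real.exp ((b ^ 2 - b) / 2 * η ^ 2)) := by
  have h2 : ∀ z : ℝ, rr η z ^ b =
      ENNReal.ofReal (Real.exp (-(b * η ^ 2 / 2)) * Real.exp (b * η * z)) := by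
    intro z
    unfold rr
    rw [ENNReal.ofReal_rpow_of_pos (Real.exp_pos _), ← Real.exp_mul, ← Real.exp_add]
    congr 2
    ring
  have hi : Integrable (fun z : ℝ => Real.exp (-(b * η ^ 2 / 2)) * Real.exp (b * η * z)) gg :=
    (integrable_exp_mul_gaussianReal (b * η)).const_mul _
  rw [lintegral_congr h2, ← ofReal_integral_eq_lintegral_ofReal hi
    (Filter.Eventually.of_forall fun z => by positivity)]
  congr 1
  rw [integral_const_mul]
  have h3 : ∫ z, Real.exp (b * η * z) ∂gg = Real.exp ((b * η) ^ 2 / 2) := by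
    have h4 := congrFun (mgf_id_gaussianReal (μ := 0) (v := 1)) (b * η)
    unfold mgf at h4
    simp only [id] at h4
    rw [h4]
    congr 1
    push_cast
    ring
  rw [h3, ← Real.exp_add]
  congr 1
  ring

/-- The extension by zero. -/
noncomputable def ext0 (J : Finset ℕ) (v : J → ℝ) (j : ℕ) : ℝ := if h : j ∈ J then v ⟨j, h⟩ else 0

theorem ext0_meas (J : Finset ℕ) : Measurable (ext0 J) := by
  refine measurable_pi_lambda _ fun j => ?_
  unfold ext0
  by_cases h : j ∈ J
  · simp only [h, dif_pos]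
    exact measurable_pi_apply _
  · simp only [h, dif_neg, not_false_iff]
    exact measurable_const

theorem dep_iff {J : Finset ℕ} {F : Set (ℕ → ℝ)} (hF : DepOn J F) (ω : ℕ → ℝ) :
    ω ∈ F ↔ ext0 J (J.restrict ω) ∈ F := by
  have h : ∀ j ∈ J, ω j = ext0 J (J.restrict ω) j := by
    intro j hj
    unfold ext0
    rw [dif_pos hj]
    rfl
  exact ⟨hF _ _ h, hF _ _ fun j hj => (h j hj).symm⟩

theorem GA_restrict (J : Finset ℕ) (G : Set (J → ℝ)) (hG : MeasurableSet G) :
    GA (J.restrict ⁻¹' G) = Measure.pi (fun _ : J => gg) G := by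
  unfold GA
  rw [← Measure.infinitePi_map_restrict (μ := fun _ : ℕ => gg) (I := J),
    Measure.map_apply (Finset.measurable_restrict J) hG]

theorem main (ε : ℝ) (J : Finset ℕ) (η : ℕ → ℝ) (F : Set (ℕ → ℝ)) (hε : 0 < ε)
    (hε1 : ε ≤ 1) (hFm : MeasurableSet F) (hF : DepOn J F) :
    (GA.real F) ^ (1 + ε) * Real.exp (-(1 / ε * ∑ j ∈ J, (η j) ^ 2))
      ≤ GA.real {z | (fun j => z j - η j) ∈ F} := by
  set G : Set (J → ℝ) := {v | ext0 J v ∈ F} with hGd
  have hG : MeasurableSet G := ext0_meas J hFm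
  set η' : J → ℝ := fun j => η j with hη'
  set a : ℝ := 1 + ε with ha
  set b : ℝ := (1 + ε) / ε with hb
  have ha0 : 0 < a := by rw [ha]; linarith
  have hb0 : 0 < b := by rw [hb]; positivity
  have hab : a.HolderConjugate b := by
    rw [Real.holderConjugate_iff]
    refine ⟨by rw [ha]; linarith, ?_⟩
    rw [ha, hb]
    field_simp
  have e1 : F = J.restrict ⁻¹' G := by
    ext ω
    rw [dep_iff hF]
    rfl
  have e2 : {ω : ℕ → ℝ | (fun j => ω j - η j) ∈ F} =
      J.restrict ⁻¹' {x : J → ℝ | (fun i => x i - η' i) ∈ G} := by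
    ext ω
    rw [Set.mem_ofPred_eq, dep_iff hF]
    rfl
  have hG' : MeasurableSet {x : J → ℝ | (fun i => x i - η' i) ∈ G} := by
    have hm : Measurable (fun (x : J → ℝ) i => x i - η' i) := by fun_prop
    exact hm hG
  have f1 : GA F = Measure.pi (fun _ : J => gg) G := by
    conv_lhs => rw [e1]
    exact GA_restrict J G hG
  have f2 : GA {ω : ℕ → ℝ | (fun j => ω j - η j) ∈ F} =
      Measure.pi (fun _ : J => gg) {x : J → ℝ | (fun i => x i - η' i) ∈ G} := by
    rw [e2]
    exact GA_restrict J _ hG'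
  have h2 := pi_holder η' G hG hab
  rw [← f1, ← f2] at h2
  set Sg : ℝ := ∑ j ∈ J, (η j) ^ 2 with hSg
  have hSg0 : 0 ≤ Sg := Finset.sum_nonneg fun j _ => sq_nonneg _
  have h3 : ∏ i : J, ∫⁻ z, rr (η' i) z ^ b ∂gg =
      ENNReal.ofReal (Real.exp ((b ^ 2 - b) / 2 * Sg)) := by
    rw [Finset.prod_congr rfl fun i _ => mom (b := b) (η := η' i),
      ← ENNReal.ofReal_prod_of_nonneg fun i _ => (Real.exp_pos _).le, ← Real.exp_sum,
      ← Finset.mul_sum]
    congr 3
    rw [hSg]
    exact Finset.sum_coe_sort J (fun j => (η j) ^ 2)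
  have h5 : GA F ≤ (GA {ω : ℕ → ℝ | (fun j => ω j - η j) ∈ F}) ^ (1 / a) *
      (ENNReal.ofReal (Real.exp ((b ^ 2 - b) / 2 * Sg))) ^ (1 / b) := by
    rw [h3] at h2; exact h2
  set p := GA.real F with hp
  set p' := GA.real {ω : ℕ → ℝ | (fun j => ω j - η j) ∈ F} with hp'
  have hp0 : 0 ≤ p := measureReal_nonneg
  have hp'0 : 0 ≤ p' := measureReal_nonneg
  have g1 : GA F = ENNReal.ofReal p := by
    rw [hp, ofReal_measureReal]
  have g2 : GA {ω : ℕ → ℝ | (fun j => ω j - η j) ∈ F} = ENNReal.ofReal p' := by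
    rw [hp', ofReal_measureReal]
  rw [g1, g2, ENNReal.ofReal_rpow_of_nonneg hp'0 (by positivity),
    ENNReal.ofReal_rpow_of_pos (Real.exp_pos _), ← ENNReal.ofReal_mul (by positivity),
    ENNReal.ofReal_le_ofReal_iff (by positivity), ← Real.exp_mul] at h5
  have e3 : (b ^ 2 - b) / 2 * Sg * (1 / b) = (b - 1) / 2 * Sg := by field_simp
  rw [e3] at h5
  have h6 : p ^ a ≤ p' * Real.exp (a * ((b - 1) / 2) * Sg) := by
    calc p ^ a ≤ (p' ^ (1 / a) * Real.exp ((b - 1) / 2 * Sg)) ^ a :=
          Real.rpow_le_rpow hp0 h5 ha0.le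
      _ = p' * Real.exp (a * ((b - 1) / 2) * Sg) := by
          rw [Real.mul_rpow (Real.rpow_nonneg hp'0 _) (Real.exp_pos _).le, ← Real.rpow_mul hp'0,
            one_div_mul_cancel ha0.ne', Real.rpow_one, ← Real.exp_mul]
          congr 2
          ring
  have h7 : a * ((b - 1) / 2) ≤ 1 / ε := by
    have h71 : a * ((b - 1) / 2) = (1 + ε) / 2 / ε := by
      rw [ha, hb]
      field_simp
      ring
    rw [h71, div_le_div_iff_of_pos_right hε]
    linarith
  have h8 : Real.exp (a * ((b - 1) / 2) * Sg) ≤ Real.exp (1 / ε * Sg) :=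
    Real.exp_le_exp.2 (mul_le_mul_of_nonneg_right h7 hSg0)
  calc p ^ a * Real.exp (-(1 / ε * Sg)) ≤ (p' * Real.exp (1 / ε * Sg)) *
        Real.exp (-(1 / ε * Sg)) :=
        mul_le_mul_of_nonneg_right (h6.trans (mul_le_mul_of_nonneg_left h8 hp'0)) (Real.exp_pos _).le
    _ = p' := by
        rw [mul_assoc, ← Real.exp_add, add_neg_cancel, Real.exp_zero, mul_one]

theorem gp_gshift : Pool.Agent.H174.GP.S_gshift := by
  intro ε N η F hε hε1 hFm hF
  exact main ε (Finset.Icc 1 N) η F hε hε1 hFm hF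

end Pool.Agent.H190.GP174
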